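import Mathlib

namespace H531R3

universe u

section abstract_part

variable {V : Type*} [AddCommGroup V] (B : V →ₗ[ℤ] V →ₗ[ℤ] ℤ)

/-- Commuting isometries `a, b` of a positive definite integral form: on the kernel of
`1 - a + b` the element `a` satisfies `a^2 - a + 1 = 0` and `b = a^2`. -/
theorem key_kernel (hsymm : ∀ x y, B x y = B y x) (hpos : ∀ x, B x x = 0 → x = 0)
    (a b : V →ₗ[ℤ] V) (hab : ∀ x, a (b x) = b (a x))
    (ha : ∀ x y, B (a x) (a y) = B x y) (hb : ∀ x y, B (b x) (b y) = B x y)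
    (r : V) (hr : r - a r + b r = 0) :
    a (a r) - a r + r = 0 ∧ b r = a (a r) := by
  have star : ∀ x : V, x - a x + b x = 0 → 2 * B (a x) x = B x x := by
    intro x hx
    have h1 : b x = a x - x := by
      have : b x = (x - a x + b x) + (a x - x) := by abel
      rw [this, hx, zero_add]
    have h2 := hb x x
    rw [h1] at h2
    simp only [map_sub, LinearMap.sub_apply] at h2
    rw [ha x x, hsymm x (a x)] at h2
    linarith
  have inv : ∀ x : V, x - a x + b x = 0 → a x - a (a x) + b (a x) = 0 := by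
    intro x hx
    have := congrArg a hx
    simpa [map_add, map_sub, hab] using this
  have hr1 := inv r hr
  have hsum : (r + a r) - a (r + a r) + b (r + a r) = 0 := by
    have : (r + a r) - a (r + a r) + b (r + a r)
        = (r - a r + b r) + (a r - a (a r) + b (a r)) := by
      simp only [map_add]; abel
    rw [this, hr, hr1, zero_add]
  have s1 := star r hr
  have s2 := star (a r) hr1
  have s3 := star _ hsum
  have e1 := ha r r
  have e2 := ha (a r) r
  have e3 := ha r (a r)
  have e4 := ha (a r) (a r)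
  have zz : B (a (a r) - a r + r) (a (a r) - a r + r) = 0 := by
    simp only [map_add, map_sub, LinearMap.add_apply, LinearMap.sub_apply] at s3 ⊢
    rw [hsymm r (a r)] at *
    rw [hsymm r (a (a r))] at *
    rw [hsymm (a r) (a (a r))] at *
    linarith
  have h0 := hpos _ zz
  refine ⟨h0, ?_⟩
  have h1 : b r = a r - r := by
    have : b r = (r - a r + b r) + (a r - r) := by abel
    rw [this, hr, zero_add]
  have h2 : a (a r) = (a (a r) - a r + r) + (a r - r) := by abel
  rw [h1, h2, h0, zero_add]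

/-- The elements `a^2 s - a s + s` and `b s - a^2 s` are orthogonal to the kernel of `1-a+b`. -/
theorem orth_kernel (hsymm : ∀ x y, B x y = B y x) (hpos : ∀ x, B x x = 0 → x = 0)
    (a b : V →ₗ[ℤ] V) (hab : ∀ x, a (b x) = b (a x))
    (ha : ∀ x y, B (a x) (a y) = B x y) (hb : ∀ x y, B (b x) (b y) = B x y)
    (r : V) (hr : r - a r + b r = 0) (s : V) :
    B (a (a s) - a s + s) r = 0 ∧ B (b s - a (a s)) r = 0 := by
  have key := key_kernel B hsymm hpos a b hab ha hb
  have inv : ∀ x : V, x - a x + b x = 0 → a x - a (a x) + b (a x) = 0 := by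
    intro x hx
    have := congrArg a hx
    simpa [map_add, map_sub, hab] using this
  have h2 : a (a r) = a r - r := by
    have := (key r hr).1
    have e : a (a r) = (a (a r) - a r + r) + (a r - r) := by abel
    rw [e, this, zero_add]
  have hb2 : b r = a r - r := by rw [(key r hr).2, h2]
  have h3 : a (a (a r)) = -r := by
    have : a (a (a r)) = a (a r) - a r := by rw [h2]; simp only [map_sub]; rw [h2]
    rw [this, h2]; abel
  have h6 : a (a (a (a (a (a r))))) = r := by
    rw [h3]; simp only [map_neg]; rw [h3]; simp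
  have h4 : a (a (a (a r))) = - a r := by rw [h3]; simp
  have h5 : a (a (a (a (a r)))) = - a (a r) := by rw [h4]; simp
  -- B (a a s) r = B s (a^4 r)
  have t1 : B (a (a s)) r = B s (- a r) := by
    calc B (a (a s)) r = B (a (a s)) (a (a (a (a (a (a r)))))) := by rw [h6]
      _ = B s (a (a (a (a r)))) := by rw [ha, ha]
      _ = B s (- a r) := by rw [h4]
  have t2 : B (a s) r = B s (- a (a r)) := by
    calc B (a s) r = B (a s) (a (a (a (a (a (a r)))))) := by rw [h6]
      _ = B s (a (a (a (a (a r))))) := by rw [ha]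
      _ = B s (- a (a r)) := by rw [h5]
  have hbr : b (- a r) = r := by
    simp only [map_neg]
    rw [← hab, hb2]; simp only [map_sub]; rw [h2]; abel
  have t3 : B (b s) r = B s (- a r) := by
    calc B (b s) r = B (b s) (b (- a r)) := by rw [hbr]
      _ = B s (- a r) := hb _ _
  constructor
  · simp only [map_add, map_sub, LinearMap.add_apply, LinearMap.sub_apply]
    rw [t1, t2, h2]
    simp only [map_neg, map_sub]
    ring
  · simp only [map_sub, LinearMap.sub_apply]
    rw [t1, t3]; ring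

end abstract_part

section concrete

variable {Q : Type u}

/-- The standard inner product on finitely supported integer functions. -/
noncomputable def ip (Q : Type u) : (Q →₀ ℤ) →ₗ[ℤ] (Q →₀ ℤ) →ₗ[ℤ] ℤ :=
  Finsupp.linearCombination ℤ (fun q => (Finsupp.lapply q : (Q →₀ ℤ) →ₗ[ℤ] ℤ))

theorem ip_apply (r s : Q →₀ ℤ) : ip Q r s = r.sum (fun q x => x * s q) := by
  unfold ip
  rw [Finsupp.linearCombination_apply, Finsupp.sum, LinearMap.sum_apply]
  rfl

theorem ip_single [DecidableEq Q] (q p : Q) : ip Q (Finsupp.single q 1) (Finsupp.single p 1)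
    = if p = q then 1 else 0 := by
  rw [ip_apply, Finsupp.sum_single_index (by simp)]
  rw [Finsupp.single_apply]; simp

theorem ip_ext {L M : (Q →₀ ℤ) →ₗ[ℤ] (Q →₀ ℤ) →ₗ[ℤ] ℤ}
    (h : ∀ q p, L (Finsupp.single q 1) (Finsupp.single p 1)
      = M (Finsupp.single q 1) (Finsupp.single p 1)) (r s : Q →₀ ℤ) : L r s = M r s := by
  have : L = M := by
    apply Finsupp.lhom_ext'
    intro q
    apply LinearMap.ext_ring
    apply Finsupp.lhom_ext'
    intro p
    apply LinearMap.ext_ring
    exact h q p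
  rw [this]

theorem ip_symm (r s : Q →₀ ℤ) : ip Q r s = ip Q s r := by
  classical
  have := ip_ext (L := ip Q) (M := (ip Q).flip) (by
    intro q p
    rw [LinearMap.flip_apply, ip_single, ip_single]
    by_cases h : p = q
    · rw [if_pos h, if_pos h.symm]
    · rw [if_neg h, if_neg (fun h' => h h'.symm)]) r s
  simpa using this

theorem ip_pos (r : Q →₀ ℤ) (h : ip Q r r = 0) : r = 0 := by
  rw [ip_apply, Finsupp.sum] at h
  rw [Finset.sum_eq_zero_iff_of_nonneg (fun q _ => mul_self_nonneg _)] at h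
  ext q
  by_cases hq : q ∈ r.support
  · have := h q hq
    simpa using this
  · simpa using hq

/-- Right translation. -/
noncomputable def rt [Mul Q] (β : Q) : (Q →₀ ℤ) →ₗ[ℤ] (Q →₀ ℤ) :=
  Finsupp.lmapDomain ℤ ℤ (fun q => q * β)

theorem rt_single [Mul Q] (β q : Q) (n : ℤ) :
    rt β (Finsupp.single q n) = Finsupp.single (q * β) n := by
  unfold rt
  rw [Finsupp.lmapDomain_apply, Finsupp.mapDomain_single]

theorem rt_isom [Group Q] (β : Q) (r s : Q →₀ ℤ) : ip Q (rt β r) (rt β s) = ip Q r s := by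
  classical
  exact ip_ext (L := (ip Q).compl₁₂ (rt β) (rt β)) (M := ip Q) (by
    intro q p
    rw [LinearMap.compl₁₂_apply, rt_single, rt_single, ip_single, ip_single]
    simp) r s

theorem rt_comm [Group Q] (β γ : Q) (h : β * γ = γ * β) (r : Q →₀ ℤ) :
    rt β (rt γ r) = rt γ (rt β r) := by
  have : (rt β).comp (rt γ) = (rt γ).comp (rt β) := by
    apply Finsupp.lhom_ext'
    intro q
    apply LinearMap.ext_ring
    simp only [LinearMap.comp_apply, Finsupp.lsingle_apply, rt_single, mul_assoc, h]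
  exact LinearMap.congr_fun this r

/-- The operator `1 - β₁ + β₂`. -/
noncomputable def fop [Mul Q] (β₁ β₂ : Q) : (Q →₀ ℤ) →ₗ[ℤ] (Q →₀ ℤ) :=
  LinearMap.id - rt β₁ + rt β₂

theorem fop_apply [Mul Q] (β₁ β₂ : Q) (r : Q →₀ ℤ) :
    fop β₁ β₂ r = r - rt β₁ r + rt β₂ r := rfl

/-- The orthogonal complement of the kernel of `fop`. -/
noncomputable def perp [Group Q] (β₁ β₂ : Q) : Submodule ℤ (Q →₀ ℤ) where
  carrier := {s | ∀ r, fop β₁ β₂ r = 0 → ip Q s r = 0}
  zero_mem' := by intro r _; simp
  add_mem' := by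
    intro s t hs ht r hr
    rw [map_add, LinearMap.add_apply, hs r hr, ht r hr, add_zero]
  smul_mem' := by
    intro c s hs r hr
    rw [map_smul, LinearMap.smul_apply, hs r hr, smul_zero]

abbrev TT := AddCircle (1 : ℚ)

theorem extend_char {M N : Type u} [AddCommGroup M] [AddCommGroup N] (f : M →ₗ[ℤ] N)
    (hf : Function.Injective f) (c : M →+ TT) : ∃ d : N →+ TT, ∀ x, d (f x) = c x := by
  obtain ⟨d, hd⟩ := CharacterModule.dual_surjective_of_injective f hf (c : CharacterModule M)
  refine ⟨d, fun x => ?_⟩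
  have := congrArg (fun (g : CharacterModule M) => g x) hd
  exact this

/-- Decomposition of an arbitrary function. -/
theorem decomp [Group Q] (β₁ β₂ : Q) (h : β₁ * β₂ = β₂ * β₁) (C : Q → TT) :
    ∃ m c : Q → TT, (∀ q, C q = m q - m (q * β₁) + m (q * β₂) + c q) ∧
      (∀ q, c (q * β₁ * β₁) = c (q * β₁) - c q) ∧
      (∀ q, c (q * β₂) = c (q * β₁ * β₁)) ∧
      ((∀ r, fop β₁ β₂ r = 0 → r = 0) → c = 0) := by
  classical
  have orth := fun (r : Q →₀ ℤ) (hr : fop β₁ β₂ r = 0) (s : Q →₀ ℤ) =>
    orth_kernel (ip Q) ip_symm ip_pos (rt β₁) (rt β₂) (rt_comm β₁ β₂ h) (rt_isom β₁) (rt_isom β₂)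
      r hr s
  let F : (Q →₀ ℤ) →ₗ[ℤ] (Q →₀ ℤ) × ((Q →₀ ℤ) ⧸ perp β₁ β₂) :=
    LinearMap.prod (fop β₁ β₂) (perp β₁ β₂).mkQ
  have hF : Function.Injective F := by
    rw [← LinearMap.ker_eq_bot, eq_bot_iff]
    intro r hr
    rw [LinearMap.mem_ker] at hr
    have h1 : fop β₁ β₂ r = 0 := congrArg Prod.fst hr
    have h2 : (perp β₁ β₂).mkQ r = 0 := congrArg Prod.snd hr
    rw [← LinearMap.mem_ker, Submodule.ker_mkQ] at h2
    have := h2 r h1
    rw [Submodule.mem_bot]
    exact ip_pos r this
  let Chat : (Q →₀ ℤ) →+ TT := Finsupp.liftAddHom (fun q => (zmultiplesHom TT (C q)))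
  have hC : ∀ q, Chat (Finsupp.single q 1) = C q := by
    intro q
    simp [Chat]
  obtain ⟨d, hd⟩ := extend_char F hF Chat
  let c0 : (Q →₀ ℤ) → TT := fun r => d (0, (perp β₁ β₂).mkQ r)
  have c0add : ∀ r s, c0 (r + s) = c0 r + c0 s := by
    intro r s
    have : ((0 : Q →₀ ℤ), (perp β₁ β₂).mkQ (r + s))
        = (0, (perp β₁ β₂).mkQ r) + (0, (perp β₁ β₂).mkQ s) := by
      rw [map_add]; simp
    change d _ = d _ + d _
    rw [this, map_add]
  have c0van : ∀ r, r ∈ perp β₁ β₂ → c0 r = 0 := by
    intro r hr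
    have : (perp β₁ β₂).mkQ r = 0 := by
      rw [← LinearMap.mem_ker, Submodule.ker_mkQ]; exact hr
    change d _ = 0
    rw [this]
    exact map_zero d
  refine ⟨fun q => d (Finsupp.single q 1, 0), fun q => c0 (Finsupp.single q 1), ?_, ?_, ?_, ?_⟩
  · intro q
    rw [← hC q, ← hd]
    have : F (Finsupp.single q 1) = ((Finsupp.single q 1, 0) : (Q →₀ ℤ) × _)
        - (Finsupp.single (q * β₁) 1, 0) + (Finsupp.single (q * β₂) 1, 0)
        + (0, (perp β₁ β₂).mkQ (Finsupp.single q 1)) := by
      ext1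
      · simp [F, fop_apply, rt_single]
      · simp [F]
    rw [this, map_add, map_add, map_sub]
  · intro q
    have hm : rt β₁ (rt β₁ (Finsupp.single q 1)) - rt β₁ (Finsupp.single q 1)
        + Finsupp.single q 1 ∈ perp β₁ β₂ := fun r hr => (orth r hr _).1
    have h0 := c0van _ hm
    simp only [rt_single] at h0
    have e : Finsupp.single (q * β₁) (1 : ℤ) = Finsupp.single q 1 +
      ((Finsupp.single (q * β₁) 1) - Finsupp.single q 1) := by abel
    have e2 : Finsupp.single (q * β₁ * β₁) (1 : ℤ) + Finsupp.single q 1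
      = (Finsupp.single (q * β₁ * β₁) 1 - Finsupp.single (q * β₁) 1 + Finsupp.single q 1)
        + Finsupp.single (q * β₁) 1 := by abel
    have e3 := congrArg c0 e2
    rw [c0add, c0add, h0, zero_add] at e3
    exact eq_sub_of_add_eq e3
  · intro q
    have hm : rt β₂ (Finsupp.single q 1) - rt β₁ (rt β₁ (Finsupp.single q 1))
        ∈ perp β₁ β₂ := fun r hr => (orth r hr _).2
    have h0 := c0van _ hm
    simp only [rt_single] at h0
    have e2 : Finsupp.single (q * β₂) (1 : ℤ)
      = (Finsupp.single (q * β₂) 1 - Finsupp.single (q * β₁ * β₁) 1)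
        + Finsupp.single (q * β₁ * β₁) 1 := by abel
    have e3 := congrArg c0 e2
    rw [c0add, h0, zero_add] at e3
    exact e3
  · intro hI
    funext q
    apply c0van
    intro r hr
    rw [hI r hr]; simp

end concrete

end H531R3
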