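import Mathlib
import Pool.Agent.H531R3.Comb

namespace H531R3

universe u

/-- Sector of a lattice point. -/
def sec (a b : ℤ) : ZMod 6 :=
  if 0 < a ∧ b ≤ 0 then 0
  else if a ≤ 0 ∧ b < a then 1
  else if a ≤ b ∧ b < 0 then 2
  else if a < 0 ∧ 0 ≤ b then 3
  else if 0 ≤ a ∧ a < b then 4
  else 5

theorem sec_step (a b : ℤ) (h : ¬ (a = 0 ∧ b = 0)) : sec b (b - a) = sec a b + 1 := by
  unfold sec
  split_ifs <;> first | rfl | (exfalso; omega)

variable {Q : Type u}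

theorem rt_eval [Group Q] (β : Q) (r : Q →₀ ℤ) (q : Q) : rt β r (q * β) = r q := by
  unfold rt
  rw [Finsupp.lmapDomain_apply]
  exact Finsupp.mapDomain_apply (mul_left_injective β) r q

theorem phase [Group Q] (β₁ β₂ : Q) (h : β₁ * β₂ = β₂ * β₁) (r : Q →₀ ℤ)
    (hr : fop β₁ β₂ r = 0) (hr0 : r ≠ 0) :
    ∃ ph : Q → ZMod 6, (∀ q, ph (q * β₁) = ph q + 1) ∧ (∀ q, ph (q * β₂) = ph q + 2) := by
  classical
  obtain ⟨k1, k2⟩ := key_kernel (ip Q) ip_symm ip_pos (rt β₁) (rt β₂) (rt_comm β₁ β₂ h)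
    (rt_isom β₁) (rt_isom β₂) r hr
  have rec1 : ∀ q, r (q * β₁ * β₁) = r (q * β₁) - r q := by
    intro q
    have e := DFunLike.congr_fun k1 (q * β₁ * β₁)
    simp only [Finsupp.add_apply, Finsupp.sub_apply, rt_eval, Finsupp.coe_zero,
      Pi.zero_apply] at e
    linarith
  have rec2 : ∀ q, r (q * β₂) = r (q * β₁ * β₁) := by
    intro q
    have e := DFunLike.congr_fun k2 (q * β₂ * β₁ * β₁)
    rw [rt_eval, rt_eval] at e
    have c : q * β₂ * β₁ * β₁ = q * β₁ * β₁ * β₂ := by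
      rw [mul_assoc q β₂ β₁, ← h, ← mul_assoc, mul_assoc (q * β₁) β₂ β₁, ← h, ← mul_assoc]
    rw [c, rt_eval] at e
    exact e.symm
  let Z : Q → Prop := fun q => r q = 0 ∧ r (q * β₁) = 0
  have Z1 : ∀ q, Z (q * β₁) ↔ Z q := by
    intro q
    simp only [Z]
    rw [rec1]
    constructor
    · rintro ⟨a, b⟩; constructor <;> omega
    · rintro ⟨a, b⟩; constructor <;> omega
  have Z2 : ∀ q, Z (q * β₂) ↔ Z q := by
    intro q
    have : Z (q * β₂) ↔ Z (q * β₁ * β₁) := by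
      simp only [Z]
      have c : q * β₂ * β₁ = q * β₁ * β₂ := by rw [mul_assoc, ← h, ← mul_assoc]
      rw [c, rec2, rec2]
    rw [this, Z1, Z1]
  let B : Subgroup Q :=
    { carrier := {β | ∀ q, Z (q * β) ↔ Z q}
      one_mem' := by intro q; rw [mul_one]
      mul_mem' := by
        intro a b ha hb q
        rw [← mul_assoc, hb, ha]
      inv_mem' := by
        intro a ha q
        rw [← ha (q * a⁻¹), inv_mul_cancel_right] }
  have hB1 : β₁ ∈ B := Z1
  have hB2 : β₂ ∈ B := Z2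
  obtain ⟨q0, hq0⟩ : ∃ q0, r q0 ≠ 0 := by
    by_contra hcon
    push Not at hcon
    exact hr0 (Finsupp.ext hcon)
  have hZ0 : ¬ Z q0 := fun hz => hq0 hz.1
  let g : Q → Q := fun q => (QuotientGroup.mk q : Q ⧸ B).out
  have hg : ∀ q, (g q)⁻¹ * q ∈ B := by
    intro q
    have : (QuotientGroup.mk (g q) : Q ⧸ B) = QuotientGroup.mk q := Quotient.out_eq' _
    exact QuotientGroup.eq.1 this
  have hg1 : ∀ q β, β ∈ B → g (q * β) = g q := by
    intro q β hβ
    have : (QuotientGroup.mk (q * β) : Q ⧸ B) = QuotientGroup.mk q := by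
      rw [QuotientGroup.eq]
      simpa using hβ
    simp only [g, this]
  let t : Q → Q := fun q => q0 * ((g q)⁻¹ * q)
  have ht : ∀ q, ¬ Z (t q) := by
    intro q hz
    exact hZ0 ((hg q q0).1 hz)
  have ht1 : ∀ q β, β ∈ B → t (q * β) = t q * β := by
    intro q β hβ
    simp only [t, hg1 q β hβ, mul_assoc]
  refine ⟨fun q => sec (r (t q)) (r (t q * β₁)), ?_, ?_⟩
  · intro q
    simp only [ht1 q β₁ hB1, rec1]
    exact sec_step _ _ (ht q)
  · intro q
    simp only [ht1 q β₂ hB2]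
    have c : t q * β₂ * β₁ = t q * β₁ * β₂ := by rw [mul_assoc, ← h, ← mul_assoc]
    rw [c, rec2, rec2, rec1 (t q * β₁), rec1 (t q)]
    have e1 := sec_step _ _ (ht q)
    have n1 : ¬ (r (t q * β₁) = 0 ∧ r (t q * β₁) - r (t q) = 0) := by
      rintro ⟨a, b⟩
      exact ht q ⟨by omega, a⟩
    have e2 := sec_step _ _ n1
    rw [e2, e1]
    ring

end H531R3
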