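import Pool.Agent.H952R3.Ext.Stmts

/-! Task E of the project H952-RADON: strictness of `main_odd` for connected matroids of odd rank at
least five. -/

set_option autoImplicit false

namespace Pool.Agent.H531R3.RadonE

open Pool.Agent.Helper766.Rad Pool.Agent.H952R3.Ext

variable {ι : Type} [DecidableEq ι]

theorem NF.subset {M : RankFn ι} {E F : Finset ι} (h : NF M E) (hF : F ⊆ E) : NF M F :=
  fun G hG => h G (hG.trans hF)

theorem erase_cast {E : Finset ι} {x : ι} (hx : x ∈ E) : ((E.erase x).card : ℤ) = E.card - 1 := by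
  have hce := Finset.card_erase_add_one hx
  have : ((E.erase x).card : ℤ) + 1 = E.card := by exact_mod_cast hce
  linarith

theorem card_ge {M : RankFn ι} {E : Finset ι} (hc : Conn M E) {a : ℕ} (ha : 2 ≤ a)
    (hr : M.r E = 2 * a + 1) : 6 ≤ E.card := by
  have h1 := r_le_card M E
  have h5 : 5 ≤ E.card := by omega
  have hne : E.Nonempty := by rw [← Finset.card_pos]; omega
  obtain ⟨x, hx⟩ := hne
  have h2 := (hc.nl (by omega) hx).2
  have h3 := r_le_card M (E.erase x)
  have h4 := Finset.card_erase_add_one hx
  omega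

/-- The number of circuits through a point: strict form. -/
theorem cx_gt {M : RankFn ι} {E : Finset ι} (hs : Simple M E) (hc : Conn M E) {a : ℕ} (ha : 2 ≤ a)
    (hr : M.r E = 2 * a + 1) {x : ι} (hx : x ∈ E) {q : ℕ} (hq : 4 ≤ q)
    (hN : (3 ≤ a ∧ a * q + 2 ≤ E.card) ∨ a * q + 3 ≤ E.card) :
    (q : ℤ) * (q - 1) < 2 * (cx M E x : ℤ) := by
  have h6 := card_ge hc ha hr
  have e5 : (M.r E : ℤ) - 1 = 2 * a := by rw [hr]; push_cast; ring
  have haZ : (2 : ℤ) ≤ a := by exact_mod_cast ha
  obtain ⟨s, hs' | hs'⟩ : ∃ s, q = 2 * s ∨ q = 2 * s + 1 := ⟨q / 2, by omega⟩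
  · have i2 := lemmaA hs hc (by omega) hx s
    rw [e5] at i2
    have hs2 : (2 : ℤ) ≤ s := by
      have : 2 ≤ s := by omega
      exact_mod_cast this
    subst hs'
    push_cast
    rcases hN with ⟨h3, hN⟩ | hN
    · have h3Z : (3 : ℤ) ≤ a := by exact_mod_cast h3
      have hNZ : (a : ℤ) * (2 * s) + 2 ≤ E.card := by exact_mod_cast hN
      have h7 : 0 ≤ (s : ℤ) * ((E.card : ℤ) - 2 - a * (2 * s)) :=
        mul_nonneg (by linarith) (by linarith)
      have h8 : 0 < (s : ℤ) * (((s : ℤ) - 1) * ((a : ℤ) - 2)) :=
        mul_pos (by linarith) (mul_pos (by linarith) (by linarith))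
      nlinarith
    · have hNZ : (a : ℤ) * (2 * s) + 3 ≤ E.card := by exact_mod_cast hN
      have h7 : 0 ≤ (s : ℤ) * ((E.card : ℤ) - 3 - a * (2 * s)) :=
        mul_nonneg (by linarith) (by linarith)
      have h8 : 0 ≤ (s : ℤ) * (((s : ℤ) - 1) * ((a : ℤ) - 2)) :=
        mul_nonneg (by linarith) (mul_nonneg (by linarith) (by linarith))
      nlinarith
  · have i2 := lemmaA hs hc (by omega) hx s
    rw [e5] at i2
    have hs2 : (2 : ℤ) ≤ s := by
      have : 2 ≤ s := by omega
      exact_mod_cast this
    subst hs'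
    push_cast
    rcases hN with ⟨h3, hN⟩ | hN
    · have h3Z : (3 : ℤ) ≤ a := by exact_mod_cast h3
      have hNZ : (a : ℤ) * (2 * s + 1) + 2 ≤ E.card := by exact_mod_cast hN
      have h7 : 0 ≤ (s : ℤ) * ((E.card : ℤ) - 2 - a * (2 * s + 1)) :=
        mul_nonneg (by linarith) (by linarith)
      have h8 : 0 < (s : ℤ) * ((s : ℤ) * ((a : ℤ) - 2)) :=
        mul_pos (by linarith) (mul_pos (by linarith) (by linarith))
      nlinarith
    · have hNZ : (a : ℤ) * (2 * s + 1) + 3 ≤ E.card := by exact_mod_cast hN
      have h7 : 0 ≤ (s : ℤ) * ((E.card : ℤ) - 3 - a * (2 * s + 1)) :=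
        mul_nonneg (by linarith) (by linarith)
      have h8 : 0 ≤ (s : ℤ) * ((s : ℤ) * ((a : ℤ) - 2)) :=
        mul_nonneg (by linarith) (mul_nonneg (by linarith) (by linarith))
      nlinarith

/-- The number of circuits through a point: equality case for rank five. -/
theorem cx_ge {M : RankFn ι} {E : Finset ι} (hs : Simple M E) (hc : Conn M E)
    (hr : M.r E = 5) {x : ι} (hx : x ∈ E) {q : ℕ} (hq : 4 ≤ q) (hN : E.card = 2 * q + 2) :
    (q : ℤ) * (q - 1) ≤ 2 * (cx M E x : ℤ) := by
  have e5 : (M.r E : ℤ) - 1 = 4 := by rw [hr]; norm_num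
  obtain ⟨s, hs' | hs'⟩ : ∃ s, q = 2 * s ∨ q = 2 * s + 1 := ⟨q / 2, by omega⟩
  · have i2 := lemmaA hs hc (by omega) hx s
    rw [e5, hN] at i2
    subst hs'
    push_cast at i2 ⊢
    nlinarith
  · have i2 := lemmaA hs hc (by omega) hx s
    rw [e5, hN] at i2
    subst hs'
    push_cast at i2 ⊢
    nlinarith

/-- case (ii) -/
theorem case_ii {M : RankFn ι} {E : Finset ι} (hs : Simple M E) (hF : NF M E) (hc : Conn M E)
    {a : ℕ} (ha : 2 ≤ a) (hr : M.r E = 2 * a + 1) {q : ℕ} (hq : 4 ≤ q)
    (hN : (3 ≤ a ∧ a * q + 2 ≤ E.card) ∨ a * q + 3 ≤ E.card) :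
    (q : ℤ) * (q - 1) * (3 * ((E.card : ℤ) - 1) - 2 * a * (q + 1)) <
      6 * ((circs M E).card : ℤ) + 6 * delta (q + 1) := by
  have h6 := card_ge hc ha hr
  have hne : E.Nonempty := by rw [← Finset.card_pos]; omega
  obtain ⟨x, hx⟩ := hne
  have hce := Finset.card_erase_add_one hx
  have hne' : (E.erase x).Nonempty := by rw [← Finset.card_pos]; omega
  have hcx := card_circs_del M E x
  have hcxZ : ((circs M E).card : ℤ) = (circs M (E.erase x)).card + cx M E x := by
    exact_mod_cast hcx
  have hrx := (hc.nl (by omega) hx).2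
  have i1 := main_odd (hs.subset (Finset.erase_subset x E))
    (NF.subset hF (Finset.erase_subset x E)) hne' a (by omega) q
  have i2 := cx_gt hs hc ha hr hx hq hN
  rw [erase_cast hx] at i1
  rw [hcxZ]
  nlinarith

/-- case (iii) -/
theorem case_iii {M : RankFn ι} {E : Finset ι} (hs : Simple M E) (hF : NF M E) (hc : Conn M E)
    (hr : M.r E = 5) {q : ℕ} (hq : 4 ≤ q) (hq5 : q ≠ 5) (hN : E.card = 2 * q + 2) :
    (q : ℤ) * (q - 1) * (3 * ((E.card : ℤ) - 1) - 2 * (2 : ℕ) * (q + 1)) <
      6 * ((circs M E).card : ℤ) + 6 * delta (q + 1) := by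
  have h6 := card_ge hc (a := 2) le_rfl hr
  have hne : E.Nonempty := by rw [← Finset.card_pos]; omega
  obtain ⟨x, hx⟩ := hne
  have hce := Finset.card_erase_add_one hx
  have hne' : (E.erase x).Nonempty := by rw [← Finset.card_pos]; omega
  have hcx := card_circs_del M E x
  have hcxZ : ((circs M E).card : ℤ) = (circs M (E.erase x)).card + cx M E x := by
    exact_mod_cast hcx
  have hrx := (hc.nl (by omega) hx).2
  obtain ⟨p, rfl⟩ : ∃ p, q = p + 1 := ⟨q - 1, by omega⟩
  have i1 := main_odd (hs.subset (Finset.erase_subset x E))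
    (NF.subset hF (Finset.erase_subset x E)) hne' 2 (by omega) p
  have i2 := cx_ge hs hc hr hx hq hN
  have hd : delta (p + 1) + 1 ≤ delta (p + 1 + 1) := by
    unfold delta
    split_ifs <;> omega
  have hdZ : (delta (p + 1) : ℤ) + 1 ≤ delta (p + 1 + 1) := by exact_mod_cast hd
  rw [erase_cast hx] at i1
  rw [hcxZ]
  rw [hN] at i1 ⊢
  push_cast at i1 i2 ⊢
  nlinarith

/-- a simple set of rank at most one has at most one element -/
theorem card_le_one {M : RankFn ι} {A : Finset ι} (hs : Simple M A) (hr : M.r A ≤ 1) :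
    A.card ≤ 1 := by
  by_contra hcon
  obtain ⟨a, b, ha, hb, hab⟩ := Finset.one_lt_card_iff.mp (show 1 < A.card by omega)
  have h1 := hs.2 a ha b hb hab
  have h2 : M.r {a, b} ≤ M.r A := M.mono' (by
    intro w hw
    simp only [Finset.mem_insert, Finset.mem_singleton] at hw
    rcases hw with rfl | rfl <;> assumption)
  omega

/-- case (iv), the part with `E.erase x` split into two pieces of small rank -/
theorem case_iv_split {M : RankFn ι} {E : Finset ι} (hs : Simple M E) (hc : Conn M E)
    (hr : M.r E = 5) (hN : E.card = 12) (hall : ∀ x ∈ E, ¬ Conn M (E.erase x)) {x : ι}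
    (hx : x ∈ E) {A B : Finset ι} (hA : A ⊆ E.erase x) (hB : B = E.erase x \ A)
    (hAn : A.Nonempty) (hrAB : M.r A + M.r B ≤ 5) (hrA : M.r A ≤ 2) :
    20 ≤ (circs M (E.erase x)).card := by
  have hAE : A ⊆ E := hA.trans (Finset.erase_subset x E)
  have hBE : B ⊆ E := by
    rw [hB]
    exact Finset.sdiff_subset.trans (Finset.erase_subset x E)
  have hcardx := Finset.card_erase_add_one hx
  have hsd : (E.erase x \ A).card + A.card = (E.erase x).card :=
    Finset.card_sdiff_add_card_eq_card hA
  rw [← hB] at hsd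
  have hsplit := circs_split (M := M) hA
  rw [← hB] at hsplit
  have hApos := Finset.card_pos.mpr hAn
  have hev := main_even (hs.subset hBE) 5
  have hr1 : 1 ≤ M.r A := by
    obtain ⟨y, hy⟩ := hAn
    rw [← hs.1 y (hAE hy)]
    exact M.mono' (by simpa using hy)
  rcases Nat.lt_or_ge (M.r A) 2 with h1 | h2
  · have h3 := card_le_one (hs.subset hAE) (by omega : M.r A ≤ 1)
    have h4 : (B.card : ℤ) = 10 := by
      have : B.card = 10 := by omega
      exact_mod_cast this
    have h5 : (M.r B : ℤ) ≤ 4 := by
      have : M.r B ≤ 4 := by omega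
      exact_mod_cast this
    rw [h4] at hev
    have h6 : (20 : ℤ) ≤ (circs M B).card := by
      push_cast at hev
      linarith
    have h7 : 20 ≤ (circs M B).card := by exact_mod_cast h6
    omega
  · have hA2 : M.r A = 2 := by omega
    have hA3 : A.card ≤ 3 := by
      by_contra hcon
      -- four points on a line
      obtain ⟨y, hy⟩ := hAn
      have hc1 := Finset.card_erase_add_one hy
      obtain ⟨z1, z2, z3, hz1, hz2, hz3, h12, h13, h23⟩ :=
        Finset.two_lt_card_iff.mp (show 2 < (A.erase y).card by omega)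
      rw [Finset.mem_erase] at hz1 hz2 hz3
      have hyE := hAE hy
      have hpar : ∀ z, z ≠ y ∧ z ∈ A → z ≠ z1 → Par (con M y) z z1 := by
        intro z hz hzz
        have hy1 := hs.1 y hyE
        have e1 := con_r M hy1 {z}
        have e2 := con_r M hy1 {z1}
        have e3 := con_r M hy1 {z, z1}
        have f1 := hs.2 y hyE z (hAE hz.2) hz.1.symm
        have f2 := hs.2 y hyE z1 (hAE hz1.2) hz1.1.symm
        have f3 : M.r (insert y {z, z1}) ≤ M.r A := M.mono' (by
          intro w hw
          simp only [Finset.mem_insert, Finset.mem_singleton] at hw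
          rcases hw with rfl | rfl | rfl
          · exact hy
          · exact hz.2
          · exact hz1.2)
        have f4 : M.r (insert y {z1}) ≤ M.r (insert y {z, z1}) := M.mono' (by
          intro w hw
          simp only [Finset.mem_insert, Finset.mem_singleton] at hw ⊢
          tauto)
        refine ⟨by omega, by omega, by omega⟩
      have hK := not_conn_del (K := ((E.erase y).erase z2).erase z3) hs hc (by omega) hyE
        ((Finset.erase_subset _ _).trans (Finset.erase_subset _ _)) (by
          intro z hz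
          have hz' : z = z2 ∨ z = z3 := by
            rw [Finset.mem_sdiff] at hz
            by_contra hcon2
            push Not at hcon2
            exact hz.2 (Finset.mem_erase.mpr ⟨hcon2.2, Finset.mem_erase.mpr ⟨hcon2.1, hz.1⟩⟩)
          refine ⟨z1, ?_, ?_⟩
          · rw [Finset.mem_erase, Finset.mem_erase, Finset.mem_erase]
            exact ⟨h13, h12, hz1.1, hAE hz1.2⟩
          · rcases hz' with rfl | rfl
            · exact hpar _ hz2 h12.symm
            · exact hpar _ hz3 h13.symm) (hall y hyE)
      have m2 : z2 ∈ E.erase y := Finset.mem_erase.mpr ⟨hz2.1, hAE hz2.2⟩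
      have m3 : z3 ∈ (E.erase y).erase z2 :=
        Finset.mem_erase.mpr ⟨h23.symm, Finset.mem_erase.mpr ⟨hz3.1, hAE hz3.2⟩⟩
      have k1 := Finset.card_erase_add_one m2
      have k2 := Finset.card_erase_add_one m3
      omega
    have h4 : (8 : ℤ) ≤ B.card := by
      have : 8 ≤ B.card := by omega
      exact_mod_cast this
    have h5 : (M.r B : ℤ) ≤ 3 := by
      have : M.r B ≤ 3 := by omega
      exact_mod_cast this
    have h6 : (20 : ℤ) ≤ (circs M B).card := by
      push_cast at hev
      linarith
    have h7 : 20 ≤ (circs M B).card := by exact_mod_cast h6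
    omega

/-- case (iv) -/
theorem case_iv {M : RankFn ι} {E : Finset ι} (hs : Simple M E) (hF : NF M E) (hc : Conn M E)
    (hr : M.r E = 5) (hN : E.card = 12) : 28 ≤ (circs M E).card := by
  have hcx : ∀ x ∈ E, 10 ≤ cx M E x := by
    intro x hx
    have := cx_ge hs hc hr hx (q := 5) (by norm_num) (by omega)
    push_cast at this
    have h2 : (10 : ℤ) ≤ cx M E x := by linarith
    exact_mod_cast h2
  have hne : E.Nonempty := by rw [← Finset.card_pos]; omega
  by_cases hall : ∀ x ∈ E, ¬ Conn M (E.erase x)
  · obtain ⟨x, hx⟩ := hne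
    have hrx := (hc.nl (by omega) hx).2
    have hnc := hall x hx
    unfold Conn at hnc
    push Not at hnc
    obtain ⟨A, hA, hAn, hAne, hrA⟩ := hnc
    have hBn : (E.erase x \ A).Nonempty := by
      rw [Finset.sdiff_nonempty]
      intro hh
      exact hAne (Finset.Subset.antisymm hA hh)
    have h20 : 20 ≤ (circs M (E.erase x)).card := by
      rcases Nat.lt_or_ge (M.r A) 3 with h | h
      · exact case_iv_split hs hc hr hN hall hx hA rfl hAn (by omega) (by omega)
      · have hAA : A = E.erase x \ (E.erase x \ A) := by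
          rw [Finset.sdiff_sdiff_eq_self hA]
        exact case_iv_split hs hc hr hN hall hx Finset.sdiff_subset hAA hBn (by omega)
          (by omega)
    have := card_circs_del M E x
    have := hcx x hx
    omega
  · push Not at hall
    obtain ⟨x, hx, hcon⟩ := hall
    have hrx := (hc.nl (by omega) hx).2
    have hce := Finset.card_erase_add_one hx
    have h1 := case_ii (hs.subset (Finset.erase_subset x E))
      (NF.subset hF (Finset.erase_subset x E)) hcon (a := 2) le_rfl (by omega) (q := 4) le_rfl
      (by right; omega)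
    have h11 : ((E.erase x).card : ℤ) = 11 := by
      have : (E.erase x).card = 11 := by omega
      exact_mod_cast this
    have hd : (delta (4 + 1) : ℤ) = 3 := by rfl
    rw [h11, hd] at h1
    push_cast at h1
    have h2 : (18 : ℤ) ≤ (circs M (E.erase x)).card := by linarith
    have h3 : 18 ≤ (circs M (E.erase x)).card := by exact_mod_cast h2
    have := card_circs_del M E x
    have := hcx x hx
    omega

theorem t : TaskE := by
  intro ι _ M E hs hF hc a ha hr q hq
  have h6 := card_ge hc ha hr
  have hne : E.Nonempty := by rw [← Finset.card_pos]; omega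
  induction q, hq using Nat.le_induction with
  | base =>
    rcases Nat.lt_or_ge E.card (a * 4 + 2) with hsm | hbg
    · have i0 := main_odd hs hF hne a (by omega) 3
      have i1 := arith_odd_red 3 ((E.card : ℤ) - 1) a (by norm_num) (by
        have : E.card ≤ a * 4 + 1 := by omega
        have : (E.card : ℤ) ≤ a * 4 + 1 := by exact_mod_cast this
        linarith)
      have d1 : (delta (3 + 1) : ℤ) = 1 := by rfl
      have d2 : (delta (4 + 1) : ℤ) = 3 := by rfl
      rw [d1] at i0
      rw [d2]
      push_cast at i0 i1 ⊢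
      linarith
    · rcases Nat.lt_or_ge a 3 with h3 | h3
      · have ha2 : a = 2 := by omega
        subst ha2
        rcases Nat.lt_or_ge E.card (2 * 4 + 3) with h | h
        · exact case_iii hs hF hc hr le_rfl (by norm_num) (by omega)
        · exact case_ii hs hF hc ha hr le_rfl (Or.inr h)
      · exact case_ii hs hF hc ha hr le_rfl (Or.inl ⟨h3, hbg⟩)
  | succ q hq ih =>
    rcases Nat.lt_or_ge E.card (a * (q + 1) + 2) with hsm | hbg
    · have i1 := arith_odd_red q ((E.card : ℤ) - 1) a (by positivity) (by
        have : E.card ≤ a * (q + 1) + 1 := by omega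
        have : (E.card : ℤ) ≤ a * (q + 1) + 1 := by exact_mod_cast this
        linarith)
      have hd1 : (delta (q + 1) : ℤ) ≤ delta (q + 1 + 1) := by
        exact_mod_cast delta_mono (Nat.le_succ (q + 1))
      push_cast
      linarith
    · rcases Nat.lt_or_ge a 3 with h3 | h3
      · have ha2 : a = 2 := by omega
        subst ha2
        rcases Nat.lt_or_ge E.card (2 * (q + 1) + 3) with h | h
        · rcases Nat.lt_or_ge q 5 with h5 | h5
          · -- q + 1 = 5
            have hq4 : q = 4 := by omega
            subst hq4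
            have h28 := case_iv hs hF hc hr (by omega)
            have h28Z : (28 : ℤ) ≤ (circs M E).card := by exact_mod_cast h28
            have hE : (E.card : ℤ) = 12 := by
              have : E.card = 12 := by omega
              exact_mod_cast this
            have d2 : (delta (4 + 1 + 1) : ℤ) = 3 := by rfl
            rw [hE, d2]
            push_cast
            linarith
          · exact case_iii hs hF hc hr (by omega) (by omega) (by omega)
        · exact case_ii hs hF hc ha hr (by omega) (Or.inr h)
      · exact case_ii hs hF hc ha hr (by omega) (Or.inl ⟨h3, hbg⟩)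

end Pool.Agent.H531R3.RadonE
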