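import Mathlib

namespace H531R3

/-- The unitriangular group attached to a corner map `e : P →+ D`. -/
@[ext]
structure UG {S P D : Type*} [Ring S] [AddCommGroup P] [Module S P] [AddCommGroup D]
    (e : P →+ D) where
  w : S
  v : S
  r : S
  y : P
  s : P
  m : D

namespace UG

variable {S P D : Type*} [Ring S] [AddCommGroup P] [Module S P] [AddCommGroup D]
variable {e : P →+ D}

instance : Mul (UG (S := S) e) :=
  ⟨fun a b => ⟨a.w + b.w, a.v + b.v, a.r + b.r + a.w * b.v, a.y + b.y,
    a.s + b.s + a.v • b.y, a.m + b.m + e (a.w • b.s + a.r • b.y)⟩⟩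

instance : One (UG (S := S) e) := ⟨⟨0, 0, 0, 0, 0, 0⟩⟩

instance : Inv (UG (S := S) e) :=
  ⟨fun a => ⟨-a.w, -a.v, -a.r + a.w * a.v, -a.y, -a.s + a.v • a.y,
    -a.m + e (a.w • a.s + a.r • a.y - (a.w * a.v) • a.y)⟩⟩

@[simp] theorem mul_w (a b : UG (S := S) e) : (a * b).w = a.w + b.w := rfl
@[simp] theorem mul_v (a b : UG (S := S) e) : (a * b).v = a.v + b.v := rfl
@[simp] theorem mul_r (a b : UG (S := S) e) : (a * b).r = a.r + b.r + a.w * b.v := rfl
@[simp] theorem mul_y (a b : UG (S := S) e) : (a * b).y = a.y + b.y := rfl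
@[simp] theorem mul_s (a b : UG (S := S) e) : (a * b).s = a.s + b.s + a.v • b.y := rfl
@[simp] theorem mul_m (a b : UG (S := S) e) :
    (a * b).m = a.m + b.m + e (a.w • b.s + a.r • b.y) := rfl
@[simp] theorem one_w : (1 : UG (S := S) e).w = 0 := rfl
@[simp] theorem one_v : (1 : UG (S := S) e).v = 0 := rfl
@[simp] theorem one_r : (1 : UG (S := S) e).r = 0 := rfl
@[simp] theorem one_y : (1 : UG (S := S) e).y = 0 := rfl
@[simp] theorem one_s : (1 : UG (S := S) e).s = 0 := rfl
@[simp] theorem one_m : (1 : UG (S := S) e).m = 0 := rfl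
@[simp] theorem inv_w (a : UG (S := S) e) : (a⁻¹).w = -a.w := rfl
@[simp] theorem inv_v (a : UG (S := S) e) : (a⁻¹).v = -a.v := rfl
@[simp] theorem inv_r (a : UG (S := S) e) : (a⁻¹).r = -a.r + a.w * a.v := rfl
@[simp] theorem inv_y (a : UG (S := S) e) : (a⁻¹).y = -a.y := rfl
@[simp] theorem inv_s (a : UG (S := S) e) : (a⁻¹).s = -a.s + a.v • a.y := rfl
@[simp] theorem inv_m (a : UG (S := S) e) :
    (a⁻¹).m = -a.m + e (a.w • a.s + a.r • a.y - (a.w * a.v) • a.y) := rfl

instance : Group (UG (S := S) e) :=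
  Group.ofRightAxioms
    (by
      intro a b c
      ext
      · simp; abel
      · simp; abel
      · simp [mul_add, add_mul]; abel
      · simp; abel
      · simp [smul_add, add_smul]; abel
      · simp [smul_add, add_smul, mul_smul]; abel)
    (by intro a; ext <;> simp)
    (by
      intro a
      ext
      · simp
      · simp
      · simp
      · simp
      · simp
      · simp [smul_add, smul_sub, mul_smul]; abel)

/-- Projection to the two first superdiagonal entries. -/
def toPair : UG (S := S) e →* Multiplicative (S × S) where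
  toFun a := Multiplicative.ofAdd (a.w, a.v)
  map_one' := rfl
  map_mul' a b := rfl

/-- A group with a hom to a commutative group and solvable kernel is solvable. -/
theorem solvable_aux {G A : Type*} [Group G] [CommGroup A] (f : G →* A)
    (h : Group.IsSolvable f.ker) : Group.IsSolvable G :=
  Group.isSolvable_of_ker_le_range f.ker.subtype f (by simp)

/-- The next step of the filtration. -/
def toTriple : (toPair (S := S) (e := e)).ker →* Multiplicative (S × P × P) where
  toFun a := Multiplicative.ofAdd (a.1.r, a.1.y, a.1.s)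
  map_one' := rfl
  map_mul' a b := by
    have ha : a.1.w = 0 ∧ a.1.v = 0 := by
      have := a.2
      rw [MonoidHom.mem_ker] at this
      have h2 : (a.1.w, a.1.v) = ((0 : S), (0 : S)) := this
      exact ⟨congrArg Prod.fst h2, congrArg Prod.snd h2⟩
    have h : (a * b).1 = a.1 * b.1 := rfl
    rw [h]
    simp only [mul_r, mul_y, mul_s, ha.1, ha.2, zero_mul, zero_smul, add_zero]
    rfl

instance : Group.IsSolvable (UG (S := S) e) := by
  refine solvable_aux (toPair (S := S) (e := e)) ?_
  refine solvable_aux (toTriple (S := S) (e := e)) ?_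
  refine Group.isSolvable_of_comm ?_
  rintro ⟨⟨a, ha⟩, ha'⟩ ⟨⟨b, hb⟩, hb'⟩
  have h1 : (a.w, a.v) = ((0 : S), (0 : S)) := ha
  have h2 : (b.w, b.v) = ((0 : S), (0 : S)) := hb
  have h3 : (a.r, a.y, a.s) = ((0 : S), (0 : P), (0 : P)) := ha'
  have h4 : (b.r, b.y, b.s) = ((0 : S), (0 : P), (0 : P)) := hb'
  simp only [Prod.mk.injEq] at h1 h2 h3 h4
  apply Subtype.ext
  apply Subtype.ext
  change a * b = b * a
  ext <;> simp [h1, h2, h3, h4, add_comm]

end UG

end H531R3
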