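import Mathlib
import Pool.Agent.H531R3.Comb
import Pool.Agent.H531R3.Phase
import Pool.Agent.H531R3.UT

namespace H531R3

universe u

open UG

/-- A group with a hom to a commutative group and commutative kernel is metabelian. -/
theorem ds_two {G A : Type*} [Group G] [CommGroup A] (f : G →* A)
    (h : ∀ a b : G, f a = 1 → f b = 1 → a * b = b * a) : derivedSeries G 2 = ⊥ := by
  have h1 : derivedSeries G 1 ≤ f.ker := by
    rw [derivedSeries_one]
    exact Abelianization.commutator_subset_ker f
  rw [eq_bot_iff, derivedSeries_succ, Subgroup.commutator_le]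
  intro a ha b hb
  rw [Subgroup.mem_bot, commutatorElement_eq_one_iff_mul_comm]
  exact h a b (h1 ha) (h1 hb)

/-- Functions into a group of derived length `n`. -/
theorem ds_fun {I U : Type*} [Group U] (n : ℕ) (hn : derivedSeries U n = ⊥) :
    derivedSeries (I → U) n = ⊥ := by
  rw [eq_bot_iff]
  intro F hF
  rw [Subgroup.mem_bot]
  funext i
  have h1 : Pi.evalMonoidHom (fun _ : I => U) i F ∈ derivedSeries U n :=
    map_derivedSeries_le_derivedSeries (Pi.evalMonoidHom (fun _ : I => U) i) n ⟨F, hF, rfl⟩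
  rw [hn, Subgroup.mem_bot] at h1
  exact h1

/-- Derived length of a semidirect product. -/
theorem ds_semi {N Q : Type*} [Group N] [Group Q] (φ : Q →* MulAut N) (n k : ℕ)
    (hN : derivedSeries N k = ⊥) (hQ : derivedSeries Q n = ⊥) :
    derivedSeries (N ⋊[φ] Q) (n + k) = ⊥ := by
  have h0 : derivedSeries (N ⋊[φ] Q) n ≤ (SemidirectProduct.inl : N →* N ⋊[φ] Q).range := by
    rw [SemidirectProduct.range_inl_eq_ker_rightHom]
    intro g hg
    have := map_derivedSeries_le_derivedSeries
      (SemidirectProduct.rightHom : N ⋊[φ] Q →* Q) n ⟨g, hg, rfl⟩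
    rw [hQ, Subgroup.mem_bot] at this
    exact this
  have h1 : ∀ j, derivedSeries (N ⋊[φ] Q) (n + j) ≤
      (derivedSeries N j).map (SemidirectProduct.inl : N →* N ⋊[φ] Q) := by
    intro j
    induction j with
    | zero =>
      rw [add_zero, derivedSeries_zero, ← MonoidHom.range_eq_map]
      exact h0
    | succ j ih =>
      rw [← add_assoc, derivedSeries_succ, derivedSeries_succ, Subgroup.map_commutator]
      exact Subgroup.commutator_mono ih ih
  have h2 := h1 k
  rw [hN, Subgroup.map_bot] at h2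
  exact eq_bot_iff.2 h2

abbrev PP := TT × TT
abbrev SS := Module.End ℤ PP

/-- The automorphism of order six `(a, b) ↦ (b, b - a)`. -/
def z : SS where
  toFun p := (p.2, p.2 - p.1)
  map_add' p q := by ext <;> simp; abel
  map_smul' n p := by ext <;> simp [smul_sub]

theorem z_apply (p : PP) : z p = (p.2, p.2 - p.1) := rfl

theorem z_sq : z * z = z - 1 := by
  apply LinearMap.ext
  intro p
  rw [Module.End.mul_apply, LinearMap.sub_apply, Module.End.one_apply]
  simp only [z_apply]
  ext <;> simp

theorem z_three : z ^ 3 = -1 := by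
  have : z ^ 3 = z * (z * z) := by rw [pow_succ, pow_two, mul_assoc]
  rw [this, z_sq, mul_sub, z_sq]; simp

theorem z_six : z ^ 6 = 1 := by
  have : z ^ 6 = z ^ 3 * z ^ 3 := by rw [← pow_add]
  rw [this, z_three]; simp

/-- The powers of `z` indexed modulo six. -/
def E (k : ZMod 6) : SS := z ^ k.val

theorem E_one (k : ZMod 6) : E (k + 1) = z * E k := by
  have h : ∀ k : ZMod 6, (k + 1).val = k.val + 1 ∨ ((k + 1).val = 0 ∧ k.val + 1 = 6) := by decide
  rcases h k with h | ⟨h, h'⟩
  · rw [E, E, h, pow_succ']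
  · rw [E, E, h, ← pow_succ', h', z_six, pow_zero]

theorem E_comm (k : ZMod 6) : z * E k = E k * z := by
  rw [E, ← pow_succ', pow_succ]

theorem E_two (k : ZMod 6) : E (k + 2) = E (k + 1) - E k := by
  have : k + 2 = k + 1 + 1 := by ring
  rw [this, E_one (k + 1), E_one k, ← mul_assoc, z_sq, sub_mul, one_mul]

theorem E_zero : E 0 = 1 := by rw [E, ZMod.val_zero, pow_zero]

theorem E_neg (k : ZMod 6) : E k * E (-k) = 1 := by
  have h : ∀ k : ZMod 6, (k.val + (-k).val = 0) ∨ (k.val + (-k).val = 6) := by decide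
  rw [E, E, ← pow_add]
  rcases h k with h | h
  · rw [h, pow_zero]
  · rw [h, z_six]

/-- The corner map. -/
def e0 : PP →+ TT := AddMonoidHom.fst TT TT

abbrev UU := UG (S := SS) e0

/-- The hom remembering the three superdiagonal entries. -/
def toDiag : UU →* Multiplicative (SS × SS × PP) where
  toFun a := Multiplicative.ofAdd (a.w, a.v, a.y)
  map_one' := rfl
  map_mul' _ _ := rfl

theorem ds_UU : derivedSeries UU 2 = ⊥ := by
  apply ds_two toDiag
  intro a b ha hb
  have h1 : (a.w, a.v, a.y) = ((0 : SS), (0 : SS), (0 : PP)) := ha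
  have h2 : (b.w, b.v, b.y) = ((0 : SS), (0 : SS), (0 : PP)) := hb
  simp only [Prod.mk.injEq] at h1 h2
  ext1 <;> simp [h1, h2, add_comm]

/-- Corner elements. -/
def corner (t : TT) : UU := ⟨0, 0, 0, 0, 0, t⟩

theorem corner_add (s t : TT) : corner (s + t) = corner s * corner t := by
  ext <;> simp [corner]

theorem corner_zero : corner 0 = 1 := rfl

theorem corner_comm (t : TT) (x : UU) : corner t * x = x * corner t := by
  ext <;> simp [corner, add_comm]

/-- The basic solution matrix. -/
def XM (k : ZMod 6) (p : PP) (m : TT) : UU :=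
  ⟨E k, E (-k), -(z * z), (z * z) p, -(E (-k) p), m⟩

theorem XM_rel (k : ZMod 6) (p : PP) (m0 m1 m2 C : TT) (h : C = m0 - m1 + m2 + p.1) :
    XM k p m0 * (XM (k + 1) (z p) m1)⁻¹ * XM (k + 2) ((z * z) p) m2 = corner C := by
  have key : XM (k + 1) (z p) m1 = XM (k + 2) ((z * z) p) m2 * XM k p m0 * corner (-C) := by
    have hk1 : E (-(k + 1)) * z = E (-k) := by
      have : -k = -(k + 1) + 1 := by ring
      rw [this, E_one, E_comm]
    have hk2 : E (-(k + 2)) * (z * z) = E (-k) := by
      have : -(k + 1) = -(k + 2) + 1 := by ring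
      rw [← hk1, this, E_one, ← mul_assoc, ← E_comm (-(k + 2))]
    have hz4 : (z * z) * (z * z) = - z := by
      have : (z * z) * (z * z) = z ^ 3 * z := by
        rw [pow_succ, pow_two, mul_assoc, mul_assoc, mul_assoc]
      rw [this, z_three]; simp
    have hw : E (k + 2) * E (-k) = z * z := by
      have : k + 2 = k + 1 + 1 := by ring
      rw [this, E_one (k + 1), E_one k, mul_assoc, mul_assoc, E_neg, mul_one]
    ext1
    · simp only [XM, corner, mul_w, add_zero]
      rw [E_two]; abel
    · simp only [XM, corner, mul_v, add_zero]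
      have h1 : -(k + 1) = -(k + 2) + 1 := by ring
      have h2 : -k = -(k + 2) + 2 := by ring
      rw [h1, h2, E_two (-(k + 2))]
      have h3 : -(-(k + 2) + 2) - 2 + 2 = k := by ring
      abel
    · simp only [XM, corner, mul_r, add_zero, mul_zero]
      rw [hw]; abel
    · simp only [XM, corner, mul_y, add_zero]
      rw [← Module.End.mul_apply, ← Module.End.mul_apply, z_sq]
      simp only [mul_sub, sub_mul, z_sq, LinearMap.sub_apply, mul_one, one_mul]
      abel
    · simp only [XM, corner, mul_s, mul_v, add_zero, smul_zero]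
      rw [← Module.End.mul_apply, ← Module.End.mul_apply, hk1, hk2]
      rw [Module.End.smul_def, ← Module.End.mul_apply, hk2]
      abel
    · simp only [XM, corner, mul_m, mul_r, mul_w, add_zero, smul_zero, map_zero]
      have e1 : (E (k + 2)) • (-(E (-k) p)) + (-(z * z)) • ((z * z) p) = p := by
        rw [Module.End.smul_def, Module.End.smul_def, map_neg, ← Module.End.mul_apply, hw,
          LinearMap.neg_apply, ← Module.End.mul_apply, hz4, z_sq]
        simp
      rw [e1]
      change m1 = m2 + m0 + p.1 + -C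
      rw [h]; abel
  have h1 : corner C * corner (-C) = 1 := by
    rw [← corner_add, add_neg_cancel, corner_zero]
  have h2 : (corner (-C))⁻¹ = corner C := inv_eq_of_mul_eq_one_left h1
  rw [key, mul_inv_rev, mul_inv_rev, h2]
  rw [← mul_assoc (XM k p m0) (corner C), ← corner_comm C (XM k p m0)]
  group

/-- Right translation on `X → Q → U`. -/
def tr (X Q U : Type*) [Group Q] [Group U] : Q →* MulAut (X → Q → U) where
  toFun p :=
    { toFun := fun F χ q => F χ (q * p)
      invFun := fun F χ q => F χ (q * p⁻¹)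
      left_inv := by intro F; funext χ q; simp
      right_inv := by intro F; funext χ q; simp
      map_mul' := fun F F' => rfl }
  map_one' := by
    apply MulEquiv.ext
    intro F
    funext χ q
    change F χ (q * 1) = F χ q
    rw [mul_one]
  map_mul' a b := by
    apply MulEquiv.ext
    intro F
    funext χ q
    change F χ (q * (a * b)) = F χ (q * a * b)
    rw [mul_assoc]

theorem tr_apply {X Q U : Type*} [Group Q] [Group U] (p : Q) (F : X → Q → U) (χ : X) (q : Q) :
    tr X Q U p F χ q = F χ (q * p) := rfl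

/-- Solving the relation over one orbit structure. -/
theorem solve_fun {Q : Type u} [Group Q] (β₁ β₂ : Q) (h : β₁ * β₂ = β₂ * β₁) (C : Q → TT) :
    ∃ F : Q → UU, ∀ q, F q * (F (q * β₁))⁻¹ * F (q * β₂) = corner (C q) := by
  obtain ⟨m, c, h1, h2, h3, h4⟩ := decomp β₁ β₂ h C
  by_cases hI : ∀ r, fop β₁ β₂ r = 0 → r = 0
  · have hc := h4 hI
    refine ⟨fun q => corner (m q), fun q => ?_⟩
    have e1 : C q = m q - m (q * β₁) + m (q * β₂) := by
      rw [h1 q, hc]; simp
    have e2 : (corner (m (q * β₁)))⁻¹ = corner (-(m (q * β₁))) := by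
      apply inv_eq_of_mul_eq_one_right
      rw [← corner_add, add_neg_cancel, corner_zero]
    rw [e2, ← corner_add, ← corner_add, e1, sub_eq_add_neg]
  · push Not at hI
    obtain ⟨r, hr, hr0⟩ := hI
    obtain ⟨ph, p1, p2⟩ := phase β₁ β₂ h r hr hr0
    refine ⟨fun q => XM (ph q) (c q, c (q * β₁)) (m q), fun q => ?_⟩
    have a1 : ((c (q * β₁), c (q * β₁ * β₁)) : PP) = z (c q, c (q * β₁)) := by
      rw [z_apply, h2]
    have a2 : ((c (q * β₂), c (q * β₂ * β₁)) : PP) = (z * z) (c q, c (q * β₁)) := by
      have hh : q * β₂ * β₁ = q * β₁ * β₂ := by rw [mul_assoc, ← h, ← mul_assoc]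
      rw [Module.End.mul_apply, ← a1, z_apply, hh, h3, h3 (q * β₁), h2 (q * β₁)]
    simp only [p1, p2, a1, a2]
    apply XM_rel
    exact h1 q

/-- Main construction: `A` abelian normal in a solvable group `G`. -/
theorem main_solv {G : Type u} [Group G] (A : Subgroup G) [A.Normal] (n : ℕ)
    (hn : derivedSeries G n ≤ A)
    (hA : ∀ a ∈ A, ∀ b ∈ A, a * b = b * a) (h₁ h₂ h₃ : G)
    (hc : h₁ * h₂ * h₁⁻¹ * h₂⁻¹ ∈ A) (hd : h₁ * h₂ * h₃ ∈ A) :
    ∃ (H : Type u) (_ : Group H), derivedSeries H (n + 2) = ⊥ ∧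
      ∃ ι : G →* H, Function.Injective ι ∧
        ∃ x : H, x * ι h₁ * x⁻¹ * ι h₂ * x * ι h₃ = 1 := by
  classical
  let cA : CommGroup A := { (inferInstance : Group A) with
    mul_comm := fun a b => Subtype.ext (hA a.1 a.2 b.1 b.2) }
  let Q : Type u := G ⧸ A
  let X : Type u := Additive A →+ TT
  let s : Q → G := Quotient.out
  have hs : ∀ q : Q, (QuotientGroup.mk (s q) : G ⧸ A) = q := fun q => Quotient.out_eq' q
  have kmem : ∀ (g : G) (q : Q), s q * g * (s (q * (QuotientGroup.mk g : G ⧸ A)))⁻¹ ∈ A := by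
    intro g q
    rw [← QuotientGroup.eq_one_iff, QuotientGroup.mk_mul, QuotientGroup.mk_mul,
      QuotientGroup.mk_inv, hs, hs]
    simp
  let κ : G → Q → A := fun g q => ⟨_, kmem g q⟩
  have κmul : ∀ g h q, κ (g * h) q = κ g q * κ h (q * (QuotientGroup.mk g : G ⧸ A)) := by
    intro g h q
    apply Subtype.ext
    simp only [κ, Subgroup.coe_mul, QuotientGroup.mk_mul]
    rw [mul_assoc q (QuotientGroup.mk g : G ⧸ A)]
    group
  have κone : ∀ q, κ 1 q = 1 := by
    intro q
    have := κmul 1 1 q
    simp only [mul_one, QuotientGroup.mk_one] at this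
    exact mul_eq_left.1 this.symm
  let N : Type u := X → Q → UU
  let φ : Q →* MulAut N := tr X Q UU
  let cf : G → N := fun g χ q => corner (χ (Additive.ofMul (κ g q)))
  let Ψ : G →* N ⋊[φ] Q :=
    { toFun := fun g => ⟨cf g, QuotientGroup.mk g⟩
      map_one' := by
        apply SemidirectProduct.ext
        · funext χ q
          change corner (χ (Additive.ofMul (κ 1 q))) = 1
          rw [κone, ofMul_one, map_zero, corner_zero]
        · rfl
      map_mul' := by
        intro g h
        apply SemidirectProduct.ext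
        · funext χ q
          change corner (χ (Additive.ofMul (κ (g * h) q))) =
            corner (χ (Additive.ofMul (κ g q))) *
              corner (χ (Additive.ofMul (κ h (q * (QuotientGroup.mk g : G ⧸ A)))))
          rw [κmul, ofMul_mul, map_add, corner_add]
        · rfl }
  have Ψleft : ∀ g, (Ψ g).left = cf g := fun g => rfl
  have Ψright : ∀ g, (Ψ g).right = (QuotientGroup.mk g : G ⧸ A) := fun g => rfl
  have cinj : ∀ s t, corner s = corner t → s = t := fun s t hst => congrArg UG.m hst
  have Ψinj : Function.Injective Ψ := by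
    rw [injective_iff_map_eq_one]
    intro g hg
    have h1 : (QuotientGroup.mk g : G ⧸ A) = 1 := by
      rw [← Ψright, hg]; rfl
    have h2 : cf g = 1 := by rw [← Ψleft, hg]; rfl
    have h3 : κ g 1 = 1 := by
      have : Additive.ofMul (κ g 1) = 0 := by
        apply CharacterModule.eq_zero_of_character_apply
        intro χ
        have h4 : cf g χ 1 = corner 0 := by rw [h2]; rfl
        exact cinj _ _ h4
      exact this
    have h5 := congrArg Subtype.val h3
    change s 1 * g * (s (1 * (QuotientGroup.mk g : G ⧸ A)))⁻¹ = 1 at h5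
    rw [h1, mul_one] at h5
    have h6 : s 1 * g = s 1 := by rwa [mul_inv_eq_one] at h5
    exact mul_eq_left.1 h6
  -- solving
  let d : G := (h₁ * h₂ * h₃)⁻¹
  have hdA : d ∈ A := A.inv_mem hd
  have hd1 : (QuotientGroup.mk d : G ⧸ A) = 1 := (QuotientGroup.eq_one_iff d).2 hdA
  let β₁ : Q := (QuotientGroup.mk h₁ : G ⧸ A)
  let γ : Q := (QuotientGroup.mk h₂ : G ⧸ A)
  have hcomm0 : β₁ * γ = γ * β₁ := by
    have := (QuotientGroup.eq_one_iff (N := A) _).2 hc
    simp only [QuotientGroup.mk_mul, QuotientGroup.mk_inv] at this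
    have e : β₁ * γ * β₁⁻¹ * γ⁻¹ = 1 := this
    rw [mul_inv_eq_one, mul_inv_eq_iff_eq_mul] at e
    exact e
  have hcomm : β₁ * (β₁ * γ) = (β₁ * γ) * β₁ := by
    rw [mul_assoc, ← hcomm0]
  have hF := fun χ : X => solve_fun β₁ (β₁ * γ) hcomm
    (fun q => χ (Additive.ofMul (κ d q)))
  choose F hF using hF
  have hFeq : (F : N) * (φ β₁ F)⁻¹ * φ (β₁ * γ) F = cf d := by
    funext χ q
    exact hF χ q
  have central : ∀ g (K : N), cf g * K = K * cf g := by
    intro g K
    funext χ q
    exact corner_comm _ _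
  have conj : ∀ (g : G) (K : N), Ψ g * SemidirectProduct.inl K * (Ψ g)⁻¹ =
      SemidirectProduct.inl (φ (QuotientGroup.mk g : G ⧸ A) K) := by
    intro g K
    rw [mul_inv_eq_iff_eq_mul]
    apply SemidirectProduct.ext
    · rw [SemidirectProduct.mul_left, SemidirectProduct.mul_left, Ψleft, Ψright,
        SemidirectProduct.left_inl, SemidirectProduct.left_inl, SemidirectProduct.right_inl,
        map_one, MulAut.one_apply, central]
    · rw [SemidirectProduct.mul_right, SemidirectProduct.mul_right,
        SemidirectProduct.right_inl, SemidirectProduct.right_inl, mul_one, one_mul]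
  have Ψd : Ψ d = SemidirectProduct.inl (cf d) := by
    apply SemidirectProduct.ext
    · rfl
    · rw [Ψright, hd1]; rfl
  refine ⟨N ⋊[φ] Q, inferInstance, ?_, Ψ, Ψinj, SemidirectProduct.inl F, ?_⟩
  · refine ds_semi φ n 2 (ds_fun 2 (ds_fun 2 ds_UU)) ?_
    have hsur : Function.Surjective (QuotientGroup.mk' A) := QuotientGroup.mk'_surjective A
    have h7 := map_derivedSeries_eq hsur n
    rw [← h7, Subgroup.map_eq_bot_iff, QuotientGroup.ker_mk']
    exact hn
  · have e1 := conj h₁ F
    have e2 := conj (h₁ * h₂) F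
    have e3 : SemidirectProduct.inl (φ := φ) F * (SemidirectProduct.inl (φ β₁ F))⁻¹
        * SemidirectProduct.inl (φ (β₁ * γ) F) = Ψ d := by
      rw [Ψd, ← hFeq]
      generalize φ (β₁ * γ) F = K2
      generalize φ β₁ F = K1
      rw [map_mul, map_mul, map_inv]
    have e4 : φ (QuotientGroup.mk (h₁ * h₂) : G ⧸ A) F = φ (β₁ * γ) F := rfl
    have e5 : φ (QuotientGroup.mk h₁ : G ⧸ A) F = φ β₁ F := rfl
    rw [e5] at e1
    rw [e4] at e2
    rw [← e1, ← e2] at e3
    have e6 : Ψ d = (Ψ h₁ * Ψ h₂ * Ψ h₃)⁻¹ := by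
      simp only [d, map_inv, map_mul]
    rw [e6, map_mul] at e3
    have e7 := eq_inv_iff_mul_eq_one.1 e3
    rw [← e7]
    group

end H531R3
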